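import Pool.Agent.LC5.Stmts

/-!
# LC5, rows LKH and FIN
-/

set_option autoImplicit false

open Topology

namespace Pool.Agent.LC5.H61

open Pool.Agent.LCK Pool.Agent.LC5

theorem lkh (boo : BOOStmt) (bcl : BCLStmt) (bbc : BBCStmt) (bc3 : BC3Stmt) (neb : NEBStmt)
    (stc : STCStmt) : LKHStmt := by
  intro l hl h0 h4 hpre
  obtain ⟨v, hv, hvb⟩ := neb l hl h0 h4
  obtain ⟨w, hw, hwd⟩ := stc l hl
  have hcl : IsClosed {v : Fin 6 → E3 | BetaC v} := bcl
  have hop : IsOpen {v : Fin 6 → E3 | Beta v} := boo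
  have hcov : Conf l ⊆ {v : Fin 6 → E3 | Beta v} ∪ {v : Fin 6 → E3 | BetaC v}ᶜ := by
    intro u hu
    by_cases hc : BetaC u
    · exact Or.inl (bc3 l hl h0 h4 u hu hc)
    · exact Or.inr hc
  obtain ⟨u, -, hu1, hu2⟩ := hpre _ _ hop hcl.isOpen_compl hcov ⟨v, hv, hvb⟩
    ⟨w, hw, fun hc => (bc3 l hl h0 h4 w hw hc).1 hwd⟩
  exact hu2 (bbc u hu1)

theorem fin (rev : REVStmt) (lkh : LKHStmt) (u5 : U5Stmt) : FINStmt := by
  intro l hl
  constructor
  · intro hL
    by_contra hcon
    apply hL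
    rcases lt_or_ge (l 0) (l 1 + l 2 + l 3) with h | h
    · exact u5 l hl h
    · have h4 : l 4 < l 1 + l 2 + l 3 := by
        by_contra h4
        exact hcon (le_min h (not_lt.1 h4))
      have key := ((rev 5).1 l).1
      apply key
      apply u5 (fun k => l k.rev) (fun k => hl _)
      have e0 : (Fin.rev (0 : Fin 5)) = 4 := by decide
      have e1 : (Fin.rev (1 : Fin 5)) = 3 := by decide
      have e2 : (Fin.rev (2 : Fin 5)) = 2 := by decide
      have e3 : (Fin.rev (3 : Fin 5)) = 1 := by decide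
      simp only [e0, e1, e2, e3]
      linarith
  · intro h
    exact lkh l hl (le_trans h (min_le_left _ _)) (le_trans h (min_le_right _ _))

end Pool.Agent.LC5.H61
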