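import Pool.Agent.LC5.Stmts
import Pool.Agent.Helper10_LCK.FPF
import Pool.Agent.Helper15_LC5.FBR
import Pool.Agent.Helper17_LCK.LCB
import Pool.Agent.Helper20_LCK.FIB
import Pool.Agent.Helper24_LC5.GE
import Pool.Agent.Helper25_LCK.BAS
import Pool.Agent.Helper27_LC5.BOO
import Pool.Agent.Helper28_LCK.SQF
import Pool.Agent.Helper3_LC5.BPA
import Pool.Agent.Helper32_LCK.LPC
import Pool.Agent.Helper32_LCK.SNC
import Pool.Agent.Helper33_LC5.Key
import Pool.Agent.Helper33_LC5.Loc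
import Pool.Agent.Helper34_LC5.GE5
import Pool.Agent.Helper34_LC5.STC
import Pool.Agent.Helper34_LC5.U23
import Pool.Agent.Helper39_LCK.PDN
import Pool.Agent.Helper41_LC5.BC3
import Pool.Agent.Helper41_LC5.DE5
import Pool.Agent.Helper41_LC5.NEB
import Pool.Agent.Helper41_LCK.FCP
import Pool.Agent.Helper42_LC5.BC2
import Pool.Agent.Helper42_LC5.MRG
import Pool.Agent.Helper43_LC5.ALP
import Pool.Agent.Helper43_LC5.BET
import Pool.Agent.Helper43_LC5.TRN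
import Pool.Agent.Helper49_LC5.BBC
import Pool.Agent.Helper49_LC5.GSI
import Pool.Agent.Helper49_LC5.U4
import Pool.Agent.Helper49_LC5.U5
import Pool.Agent.Helper56_LC5.CRD
import Pool.Agent.Helper56_LC5.DJC
import Pool.Agent.Helper61_LC5.ASM
import Pool.Agent.Helper65_LCK.OPN
import Pool.Agent.Helper76_LCK.PAR
import Pool.Agent.Helper79_LC5.BC1
import Pool.Agent.Helper79_LC5.BSI
import Pool.Agent.Helper81_LCK.ADJ
import Pool.Agent.Helper83_LCK.DEN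
import Pool.Agent.Helper90_LCK.FCD
import Pool.Agent.Helper92_LCK.REV

/-!
# LC5, assembly
-/

set_option autoImplicit false

namespace Pool.Agent.LC5.Top

open Pool.Agent.LCK Pool.Agent.LC5

theorem adj : ADJStmt := Pool.Agent.LCK.H81.adj
theorem opn : OPNStmt := Pool.Agent.LCK.H65o.opn adj
theorem par : PARStmt := Pool.Agent.LCK.H76.par
theorem fcp : FCPStmt := Pool.Agent.LCK.H41.fcp Pool.Agent.LCK.H90.fcd Pool.Agent.LCK.H39.pdn
  Pool.Agent.LCK.H28.sqf Pool.Agent.LCK.H17.lcb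
theorem fpf : FPFStmt := Pool.Agent.LCK.H10.fpf fcp Pool.Agent.LCK.H39.pdn
theorem snc : SNCStmt := Pool.Agent.LCK.H32.snc
theorem den : DENStmt := Pool.Agent.LCK.H83.den
theorem fib : FIBStmt := Pool.Agent.LCK.H20.fib adj
theorem bas : BASStmt := Pool.Agent.LCK.H25.bas
theorem rev : REVStmt := Pool.Agent.LCK.H92.rev
theorem lpc : LPCStmt := Pool.Agent.LCK.H32.lpc opn

theorem crd : CRDStmt := Pool.Agent.LC5.H56.crd'
theorem sm6 : SM6Stmt := Pool.Agent.LC5.H33.sm6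
theorem loc : LOCStmt := Pool.Agent.LC5.H33.loc opn
theorem key : KEYStmt := Pool.Agent.LC5.H33.key
theorem bcl : BCLStmt := Pool.Agent.LC5.H33.bcl
theorem boo : BOOStmt := Pool.Agent.LC5.H27.boo crd
theorem bbc : BBCStmt := Pool.Agent.LC5.H49.bbc
theorem stc : STCStmt := Pool.Agent.LC5.H34.stc
theorem gsi : GSIStmt := Pool.Agent.LC5.H49.gsi sm6
theorem de5 : DE5Stmt := Pool.Agent.LC5.H41.de5 par
theorem ge5 : GE5Stmt := Pool.Agent.LC5.H34.ge5 par fpf de5 gsi loc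
theorem ge4 : GE4Stmt := Pool.Agent.LC5.H24.ge4 snc den ge5
theorem ge3 : GE3Stmt := Pool.Agent.LC5.H24.ge3 snc den ge4
theorem fbr : FBRStmt := Pool.Agent.LC5.H15.fbr
theorem trn : TRNStmt := Pool.Agent.LC5.H43.trn sm6 crd
theorem alp : ALPStmt := Pool.Agent.LC5.H43.alp sm6 crd
theorem mrg : MRGStmt := Pool.Agent.LC5.H42.mrg
theorem u2 : U2Stmt := Pool.Agent.LC5.H34.u2 bas mrg
theorem u3 : U3Stmt := Pool.Agent.LC5.H34.u3 ge3 mrg u2

theorem djc : DJCStmt := Pool.Agent.LC5.H56.djc' crd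
theorem bsi : BSIStmt := Pool.Agent.LC5.H79.bsi sm6 djc
theorem bc1 : BC1Stmt := Pool.Agent.LC5.H79.bc1 sm6 key
theorem bc2 : BC2Stmt := Pool.Agent.LC5.H42.bc2 sm6 key bc1
theorem bc3 : BC3Stmt := Pool.Agent.LC5.H41.bc3 sm6 crd bc1 bc2
theorem u4 : U4Stmt := Pool.Agent.LC5.H49.u4 snc fib crd ge4 fbr trn mrg u3
theorem neb : NEBStmt := Pool.Agent.LC5.H41.neb sm6 bsi
theorem lkh : LKHStmt := Pool.Agent.LC5.H61.lkh boo bcl bbc bc3 neb stc
theorem bpa : BPAStmt := Pool.Agent.LC5.H3.bpa sm6 bsi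
theorem bet : BETStmt := Pool.Agent.LC5.H43.bet sm6 crd bsi
theorem u5 : U5Stmt := Pool.Agent.LC5.H49.u5 crd ge5 fbr trn alp bpa bet mrg u4
theorem fin : FINStmt := Pool.Agent.LC5.H61.fin rev lkh u5

theorem top (l : Fin 5 → ℝ) (hl : ∀ k, 0 < l k) :
    (Locked l ↔ l 1 + l 2 + l 3 ≤ min (l 0) (l 4)) ∧
    (¬ Locked l → ∀ c ∈ Conf l, ∀ c' ∈ Conf l, JoinedIn (Conf l) c c') :=
  ⟨fin l hl, fun h => lpc 5 l hl (not_not.1 h)⟩

end Pool.Agent.LC5.Top
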